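import Pool.Agent.W944.V2Perm

/-!
# Computations of the permanent with arbitrary polynomial gates

A gate may be any polynomial `H s`, of any degree `d s`, in any number `k s` of arguments: sums and
products (`k = 2`, `d = 2`), products of many factors, powers (`k = 1`), determinants
(`k = N ^ 2`, `d = N`), and so on; the gates of a computation may all be different. Linear
combinations and all polynomials of degree at most `δ` are free. If such a computation computes the
`m × m` permanent, exactly or as a limit, then

`m ^ 2 log (m / (6000 δ)) ≤ 272 ∑ (1 + k s) log (d s)`.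

For gates of degree at most `d` the total number of arguments (plus the number of gates) is
therefore at least `c m ^ 2 log m / log d`. The measure on the right hand side is determined up to
a constant factor: one single gate with `k = m ^ 2`, `d = m` computes the permanent.
-/

set_option autoImplicit false

open MvPolynomial

namespace Pool.Agent.Results.MP_8b1d3b_lc.ArbitraryGates

universe u

section Definitions

variable {K σ : Type*} [Field K] {n : ℕ}

/-- The sums of a polynomial of total degree at most `δ` and a linear combination, over the field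
`K`, of the `z j` with `j ∈ J`. -/
noncomputable def Available (δ : ℕ) (z : Fin n → MvPolynomial σ K) (J : Set (Fin n)) :
    Submodule K (MvPolynomial σ K) :=
  restrictTotalDegree σ K δ ⊔ Submodule.span K (z '' J)

/-- The result of the gate number `s`: the polynomial `H s`, evaluated at the arguments
`y s 0, …, y s (k s - 1)`. -/
noncomputable def gate {k : Fin n → ℕ} (H : (s : Fin n) → MvPolynomial (Fin (k s)) K)
    (y : (s : Fin n) → Fin (k s) → MvPolynomial σ K) (s : Fin n) : MvPolynomial σ K :=
  aeval (y s) (H s)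

/-- A computation of `F` with `n` gates: the gate `s` is the polynomial `H s` of total degree at
most `d s`, `1 ≤ d s`, in `k s` arguments; each argument is the sum of a polynomial of degree at
most `δ` and a linear combination of the results of the earlier gates, and `F` is the sum of a
polynomial of degree at most `δ` and a linear combination of the results of the gates. -/
structure Computes (δ : ℕ) (k d : Fin n → ℕ) (H : (s : Fin n) → MvPolynomial (Fin (k s)) K)
    (y : (s : Fin n) → Fin (k s) → MvPolynomial σ K) (F : MvPolynomial σ K) : Prop where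
  pos : ∀ s, 1 ≤ d s
  degree : ∀ s, (H s).totalDegree ≤ d s
  arg : ∀ s i, y s i ∈ Available δ (gate H y) {t | t < s}
  out : F ∈ Available δ (gate H y) Set.univ

end Definitions

/-- All coefficients of `F` are defined at `ε = 0` and `F_{ε=0} = f`. -/
def SpecializesTo {K σ : Type*} [Field K] (F : MvPolynomial σ (RatFunc K))
    (f : MvPolynomial σ K) : Prop :=
  ∀ d, (coeff d F).denom.eval 0 ≠ 0 ∧ (coeff d F).eval (RingHom.id K) 0 = coeff d f

/-- The permanent of the `m × m` matrix of variables. -/
noncomputable def per (K : Type*) [Field K] (m : ℕ) : MvPolynomial (Fin m × Fin m) K :=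
  (Matrix.of fun i j : Fin m => (X (i, j) : MvPolynomial (Fin m × Fin m) K)).permanent

lemma specializes_const {K σ : Type*} [Field K] (f : MvPolynomial σ K) :
    SpecializesTo (map (RatFunc.C : K →+* RatFunc K) f) f := by
  intro d
  rw [coeff_map]
  constructor
  · rw [RatFunc.denom_C]; simp
  · rw [RatFunc.eval_C]; rfl

lemma available_map {K σ : Type*} [Field K] {n : ℕ} (δ : ℕ)
    (z : Fin n → MvPolynomial σ K) (J : Set (Fin n)) (x : MvPolynomial σ K)
    (hx : x ∈ Available δ z J) :
    map (RatFunc.C : K →+* RatFunc K) x ∈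
      Available δ (fun t => map (RatFunc.C : K →+* RatFunc K) (z t)) J := by
  unfold Available at hx ⊢
  rw [Submodule.mem_sup] at hx
  obtain ⟨y, hy, z, hz, rfl⟩ := hx
  rw [map_add]
  apply Submodule.add_mem
  · apply Submodule.mem_sup_left
    rw [mem_restrictTotalDegree] at hy ⊢
    exact (Pool.Agent.H632R2.Border.totalDegree_map_le _ _).trans hy
  · apply Submodule.mem_sup_right
    induction hz using Submodule.span_induction with
    | mem y hy =>
      obtain ⟨j, hj, rfl⟩ := hy
      apply Submodule.subset_span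
      exact ⟨j, hj, rfl⟩
    | zero => rw [map_zero]; exact Submodule.zero_mem _
    | add y z _ _ hy hz => rw [map_add]; exact Submodule.add_mem _ hy hz
    | smul c y _ hy =>
      rw [smul_eq_C_mul, map_mul, map_C, ← smul_eq_C_mul]
      exact Submodule.smul_mem _ _ hy

lemma gate_map {K σ : Type*} [Field K] {n : ℕ} {k : Fin n → ℕ}
    (H : (s : Fin n) → MvPolynomial (Fin (k s)) K)
    (y : (s : Fin n) → Fin (k s) → MvPolynomial σ K) (s : Fin n) :
    map (RatFunc.C : K →+* RatFunc K) (gate H y s) =
      gate (fun s => map (RatFunc.C : K →+* RatFunc K) (H s))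
        (fun s i => map (RatFunc.C : K →+* RatFunc K) (y s i)) s := by
  unfold gate
  rw [aeval_eq_bind₁, map_bind₁, aeval_eq_bind₁]

lemma Computes.map {K σ : Type*} [Field K] {n δ : ℕ} {k d : Fin n → ℕ}
    {H : (s : Fin n) → MvPolynomial (Fin (k s)) K}
    {y : (s : Fin n) → Fin (k s) → MvPolynomial σ K} {F : MvPolynomial σ K}
    (h : Computes δ k d H y F) :
    Computes δ k d (fun s => MvPolynomial.map (RatFunc.C : K →+* RatFunc K) (H s))
      (fun s i => MvPolynomial.map (RatFunc.C : K →+* RatFunc K) (y s i))
      (MvPolynomial.map (RatFunc.C : K →+* RatFunc K) F) := by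
  have hg : gate (fun s => MvPolynomial.map (RatFunc.C : K →+* RatFunc K) (H s))
      (fun s i => MvPolynomial.map (RatFunc.C : K →+* RatFunc K) (y s i)) =
      fun s => MvPolynomial.map (RatFunc.C : K →+* RatFunc K) (gate H y s) := by
    funext s
    rw [gate_map]
  refine ⟨h.pos, fun s => ?_, fun s i => ?_, ?_⟩
  · exact (Pool.Agent.H632R2.Border.totalDegree_map_le _ _).trans (h.degree s)
  · rw [hg]
    exact available_map δ _ _ _ (h.arg s i)
  · rw [hg]
    exact available_map δ _ _ _ h.out

/-- the bound for limits -/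
theorem limit_bound {K : Type u} [Field K] [CharZero K] (m : ℕ) (hm : 55000 ≤ m) {n : ℕ}
    (δ : ℕ) (hδ : 1 ≤ δ) (k d : Fin n → ℕ)
    (H : (s : Fin n) → MvPolynomial (Fin (k s)) (RatFunc K))
    (y : (s : Fin n) → Fin (k s) → MvPolynomial (Fin m × Fin m) (RatFunc K))
    (F : MvPolynomial (Fin m × Fin m) (RatFunc K)) (hF : SpecializesTo F (per K m))
    (h : Computes δ k d H y F) :
    (m : ℝ) ^ 2 * Real.log (m / (6000 * δ)) ≤
      272 * ∑ s, (1 + k s : ℝ) * Real.log (d s) := by
  classical
  have hδr : (1 : ℝ) ≤ δ := by exact_mod_cast hδ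
  have hδ0 : (0 : ℝ) < δ := by linarith
  set z := gate H y with hz
  choose l c hl hc hy using fun (s : Fin n) (i : Fin (k s)) =>
    Pool.Agent.W944.Wt.mem_Avail (g := z) (J := {t | t < s}) (f := y s i) (h.arg s i) Finset.univ
      (fun j _ => Finset.mem_univ j)
  obtain ⟨q0, gm, hq0, -, hFe⟩ := Pool.Agent.W944.Wt.mem_Avail (g := z) (J := Set.univ) (f := F)
    h.out Finset.univ (fun j _ => Finset.mem_univ j)
  -- the index of an argument
  set e : ((s : Fin n) × Fin (k s)) ≃ Fin (∑ s, k s) := finSigmaFinEquiv with he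
  have hdr : ∀ s, (1 : ℝ) ≤ d s := fun s => by exact_mod_cast h.pos s
  have key := Pool.Agent.W944.V2.gperm K m hm (n := n) (R := ∑ s, k s)
    (fun _ => (δ : ℝ)) (fun s => δ * d s) (fun _ => (δ : ℝ))
    (fun j => δ * (d (e.symm j).1 - 1)) δ z (fun j => y (e.symm j).1 (e.symm j).2)
    (fun j => l (e.symm j).1 (e.symm j).2)
    (fun j => c (e.symm j).1 (e.symm j).2) gm
    (fun s => rename (fun i => Sum.inr (e ⟨s, i⟩)) (H s))
    (fun j => ((e.symm j).1 : ℕ)) (fun j => (e.symm j).1.2.le)
    (fun j s h0 => Fin.lt_def.mp (hc _ _ s h0))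
    (fun s j hj => by
      have h1 := vars_rename (fun i => (Sum.inr (e ⟨s, i⟩) : (Fin m × Fin m) ⊕ Fin (∑ s, k s)))
        (H s) hj
      rw [Finset.mem_image] at h1
      obtain ⟨i, _, hi⟩ := h1
      rw [← Sum.inr.inj hi, Equiv.symm_apply_apply])
    (fun s => by
      rw [aeval_rename, hz]
      unfold gate
      congr 2
      funext i
      simp only [Function.comp_apply, Sum.elim_inr]
      exact congrArg (fun p : (s : Fin n) × Fin (k s) => y p.1 p.2)
        (e.symm_apply_apply ⟨s, i⟩).symm)
    (fun j => hy _ _) q0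
    (fun j => by exact_mod_cast hl _ _) (fun _ _ _ => le_rfl) (fun _ => hδ0) (fun _ => le_rfl)
    (fun _ => le_rfl) hδr (fun s => by have := hdr s; positivity)
    (fun j => by
      have := hdr (e.symm j).1
      have h1 : (0 : ℝ) ≤ d (e.symm j).1 - 1 := by linarith
      positivity)
    (fun s μ hμ => by
      have hinj : Function.Injective
          (fun i => (Sum.inr (e ⟨s, i⟩) : (Fin m × Fin m) ⊕ Fin (∑ s, k s))) := by
        intro i i' hii
        have h1 := e.injective (Sum.inr.inj hii)
        exact eq_of_heq (Sigma.mk.inj h1).2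
      have h1 : (rename (fun i => (Sum.inr (e ⟨s, i⟩) : (Fin m × Fin m) ⊕ Fin (∑ s, k s)))
          (H s)).totalDegree ≤ d s := (totalDegree_rename_le _ _).trans (h.degree s)
      have h2 : (μ.sum fun _ t => t) ≤ d s := (le_totalDegree hμ).trans h1
      have h3 : (μ.sum fun _ t => t) = ∑ v, μ (Sum.inl v) + ∑ j, μ (Sum.inr j) := by
        rw [Finsupp.sum_fintype _ _ (fun _ => rfl), Fintype.sum_sum_type]
      rw [h3] at h2
      have h4 : ((∑ v, μ (Sum.inl v) + ∑ j, μ (Sum.inr j) : ℕ) : ℝ) ≤ d s := by
        exact_mod_cast h2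
      push_cast at h4
      have h5 : (0 : ℝ) ≤ ∑ v, (μ (Sum.inl v) : ℝ) := Finset.sum_nonneg fun v _ => by positivity
      rw [← Finset.mul_sum]
      calc (∑ v, (μ (Sum.inl v) : ℝ)) + δ * ∑ j, (μ (Sum.inr j) : ℝ)
          ≤ δ * (∑ v, (μ (Sum.inl v) : ℝ)) + δ * ∑ j, (μ (Sum.inr j) : ℝ) := by
            nlinarith
        _ = δ * (∑ v, (μ (Sum.inl v) : ℝ) + ∑ j, (μ (Sum.inr j) : ℝ)) := by ring
        _ ≤ δ * d s := mul_le_mul_of_nonneg_left h4 hδ0.le)
    (fun s j hj => by
      have h1 := vars_rename (fun i => (Sum.inr (e ⟨s, i⟩) : (Fin m × Fin m) ⊕ Fin (∑ s, k s)))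
        (H s) hj
      rw [Finset.mem_image] at h1
      obtain ⟨i, _, hi⟩ := h1
      rw [← Sum.inr.inj hi, Equiv.symm_apply_apply]
      simp only
      linarith)
    (fun s v hv => by
      have h1 := vars_rename (fun i => (Sum.inr (e ⟨s, i⟩) : (Fin m × Fin m) ⊕ Fin (∑ s, k s)))
        (H s) hv
      rw [Finset.mem_image] at h1
      obtain ⟨i, _, hi⟩ := h1
      exact absurd hi (by simp))
    (by
      have h1 : (q0.totalDegree : ℝ) ≤ δ := by exact_mod_cast hq0
      linarith) F hFe hF
  refine key.trans (le_of_eq ?_)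
  congr 1
  unfold Pool.Agent.W944.V2.cost
  have e1 : ∀ s, Real.log (max 1 ((δ * d s : ℝ) / δ)) = Real.log (d s) := by
    intro s
    rw [mul_div_cancel_left₀ _ hδ0.ne', max_eq_right (hdr s)]
  have e2 : ∀ s, Real.log (1 + (δ * (d s - 1) : ℝ) / δ) = Real.log (d s) := by
    intro s
    rw [mul_div_cancel_left₀ _ hδ0.ne']
    congr 1
    ring
  simp only [e1, e2]
  rw [← Equiv.sum_comp e]
  simp only [Equiv.symm_apply_apply]
  rw [Fintype.sum_sigma, ← Finset.sum_add_distrib]
  refine Finset.sum_congr rfl fun s _ => ?_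
  change Real.log (d s) + ∑ _i : Fin (k s), Real.log (d s) = _
  rw [Finset.sum_const, Finset.card_univ, Fintype.card_fin, nsmul_eq_mul]
  ring

lemma per_totalDegree (K : Type*) [Field K] (m : ℕ) : (per K m).totalDegree ≤ m := by
  unfold per Matrix.permanent
  refine (totalDegree_finsetSum _ _).trans (Finset.sup_le fun σ _ => ?_)
  refine (totalDegree_finsetProd _ _).trans ?_
  calc ∑ i : Fin m, (Matrix.of (fun i j : Fin m =>
        (X (i, j) : MvPolynomial (Fin m × Fin m) K)) (σ i) i).totalDegree
      ≤ ∑ _i : Fin m, 1 := Finset.sum_le_sum fun i _ => by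
        rw [Matrix.of_apply]
        exact (totalDegree_X _).le
    _ = m := by simp

/-- **Computations of the permanent with arbitrary polynomial gates.** `K` is a field of
characteristic zero.

(1) Let `m ≥ 55000` and `δ ≥ 1`. If a computation with gates of any kind, where the gate `s` is a
polynomial of degree at most `d s`, `1 ≤ d s`, in `k s` arguments, and linear combinations and
polynomials of degree at most `δ` are free, computes the `m × m` permanent, or such a computation
over `K(ε)` computes a polynomial that is defined at `ε = 0` and specializes to the permanent, then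
`m ^ 2 log (m / (6000 δ)) ≤ 272 ∑ (1 + k s) log (d s)`.
(2) In particular, if all gates have degree at most `D`, `2 ≤ D`, then the number of gates plus the
number of their arguments is at least `m ^ 2 log (m / (6000 δ)) / (272 log D)`.
(3) The order of the lower bound (1) is attained: for all `m ≥ 1` one gate of degree `m` with
`m ^ 2` arguments is enough, so that `∑ (1 + k s) log (d s) = (m ^ 2 + 1) log m`, with `δ = 1`. -/
theorem result (K : Type u) [Field K] [CharZero K] (m : ℕ) :
    (∀ (n δ : ℕ) (k d : Fin n → ℕ), 55000 ≤ m → 1 ≤ δ →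
      ((∃ (H : (s : Fin n) → MvPolynomial (Fin (k s)) K)
          (y : (s : Fin n) → Fin (k s) → MvPolynomial (Fin m × Fin m) K),
          Computes δ k d H y (per K m)) ∨
        ∃ (H : (s : Fin n) → MvPolynomial (Fin (k s)) (RatFunc K))
          (y : (s : Fin n) → Fin (k s) → MvPolynomial (Fin m × Fin m) (RatFunc K))
          (F : MvPolynomial (Fin m × Fin m) (RatFunc K)),
          SpecializesTo F (per K m) ∧ Computes δ k d H y F) →
      (m : ℝ) ^ 2 * Real.log (m / (6000 * δ)) ≤ 272 * ∑ s, (1 + k s : ℝ) * Real.log (d s) ∧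
      ∀ D : ℕ, 2 ≤ D → (∀ s, d s ≤ D) →
        (m : ℝ) ^ 2 * Real.log (m / (6000 * δ)) ≤
          272 * Real.log D * ((n + ∑ s, k s : ℕ) : ℝ)) ∧
    (1 ≤ m → ∃ (k d : Fin 1 → ℕ) (H : (s : Fin 1) → MvPolynomial (Fin (k s)) K)
      (y : (s : Fin 1) → Fin (k s) → MvPolynomial (Fin m × Fin m) K),
      Computes 1 k d H y (per K m) ∧ k 0 = m ^ 2 ∧ d 0 = m) := by
  classical
  refine ⟨?_, ?_⟩
  · intro n δ k d hm hδ h0
    have key : (m : ℝ) ^ 2 * Real.log (m / (6000 * δ)) ≤
        272 * ∑ s, (1 + k s : ℝ) * Real.log (d s) := by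
      rcases h0 with ⟨H, y, h⟩ | ⟨H, y, F, hF, h⟩
      · exact limit_bound m hm δ hδ k d _ _ _ (specializes_const (per K m)) h.map
      · exact limit_bound m hm δ hδ k d H y F hF h
    have hpos : ∀ s, 1 ≤ d s := by
      rcases h0 with ⟨H, y, h⟩ | ⟨H, y, F, hF, h⟩
      · exact h.pos
      · exact h.pos
    refine ⟨key, fun D hD hdD => key.trans ?_⟩
    rw [mul_assoc]
    apply mul_le_mul_of_nonneg_left _ (by norm_num)
    calc ∑ s, (1 + k s : ℝ) * Real.log (d s) ≤ ∑ s, (1 + k s : ℝ) * Real.log D := by
          apply Finset.sum_le_sum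
          intro s _
          apply mul_le_mul_of_nonneg_left _ (by positivity)
          apply Real.log_le_log
          · exact_mod_cast hpos s
          · exact_mod_cast hdD s
      _ = Real.log D * ((n + ∑ s, k s : ℕ) : ℝ) := by
          rw [← Finset.sum_mul, Finset.sum_add_distrib]
          push_cast
          simp
          ring
  · intro hm
    let e : Fin (m ^ 2) ≃ Fin m × Fin m :=
      (finCongr (pow_two m)).trans finProdFinEquiv.symm
    refine ⟨fun _ => m ^ 2, fun _ => m, fun _ => rename e.symm (per K m),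
      fun _ i => X (e i), ⟨fun _ => hm, fun _ => ?_, fun s i => ?_, ?_⟩, rfl, rfl⟩
    · exact (totalDegree_rename_le _ _).trans (per_totalDegree K m)
    · apply Submodule.mem_sup_left
      rw [mem_restrictTotalDegree]
      exact (totalDegree_X _).le
    · apply Submodule.mem_sup_right
      apply Submodule.subset_span
      refine ⟨0, Set.mem_univ _, ?_⟩
      unfold gate
      rw [aeval_rename]
      have h1 : ((fun i => (X (e i) : MvPolynomial (Fin m × Fin m) K)) ∘ e.symm) = X := by
        funext v
        simp
      rw [h1, aeval_X_left_apply]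

end Pool.Agent.Results.MP_8b1d3b_lc.ArbitraryGates
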