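import Pool.Agent.H53R8.Final

/-!
# Circuits for multiples of the permanent, exact and approximate

Every nonzero multiple `Q * per_N` of the permanent, of any degree, needs `(1/864 - o(1)) N² log₂ N`
multiplications, also if the multiple only has to be computed approximately, that is, as the limit
`ε → 0` of polynomials over `K(ε)`, where the scalars of the program may have poles at `ε = 0`.

The proof is that of the starting files `Pool/Agent/H53R8`, whose theorems on multiples of the
permanent had not been handed in (the one on the graph of the permanent is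
`MP_8b1d3b_lc.GraphOfPermanent`): a block matrix of order `3 n + ρ` with entries variables and
constants has permanent `κ * (y - per_n)`; after a perturbation the multiple becomes a nonzero
multiple of `y - per_n`, up to terms of higher order, so it vanishes on the graph of `per_n`.
-/

set_option autoImplicit false

open MvPolynomial

namespace Pool.Agent.Results.MP_8b1d3b_lc.MultiplesOfPermanent

universe u

/-- A division-free straight-line program `g 0, …, g (s - 1)` over the field `K` in which additions
and multiplications by constants are free: a line `i ∉ M` is any linear combination, with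
coefficients in `K`, of `1`, the variables and the earlier lines; a line `i ∈ M` is the product of
two earlier lines.  The cost of the program is the number of elements of `M`. -/
def IsProgram {K σ : Type*} [Field K] (s : ℕ) (M : Finset ℕ) (g : ℕ → MvPolynomial σ K) : Prop :=
  ∀ i < s, (i ∉ M ∧ g i ∈ Submodule.span K
      ({1} ∪ Set.range (X : σ → MvPolynomial σ K) ∪ g '' {j | j < i})) ∨
    (i ∈ M ∧ ∃ a < i, ∃ b < i, g i = g a * g b)

/-- `F` is computed by such a program with at most `r` product lines. -/
def ComputedWith {K σ : Type*} [Field K] (r : ℕ) (F : MvPolynomial σ K) : Prop :=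
  ∃ (s : ℕ) (M : Finset ℕ) (g : ℕ → MvPolynomial σ K),
    M.card ≤ r ∧ IsProgram s M g ∧ ∃ i < s, g i = F

/-- All coefficients of `F` are defined at `ε = 0` and `F_{ε=0} = f`. -/
def SpecializesTo {K σ : Type*} [Field K] (F : MvPolynomial σ (RatFunc K))
    (f : MvPolynomial σ K) : Prop :=
  ∀ d, (coeff d F).denom.eval 0 ≠ 0 ∧ (coeff d F).eval (RingHom.id K) 0 = coeff d f

/-- The permanent of the generic `N × N` matrix. -/
noncomputable def genericPermanent (K : Type*) [Field K] (N : ℕ) :
    MvPolynomial (Fin N × Fin N) K :=
  (Matrix.of fun i j => X (i, j) : Matrix (Fin N) (Fin N) (MvPolynomial (Fin N × Fin N) K)).permanent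

theorem perN_eq (K : Type*) [Field K] (N : ℕ) :
    Pool.Agent.H546R2.SL.perN K N = genericPermanent K N := rfl

/-- **Every nonzero multiple of the permanent needs `(1/864 - o(1)) N² log₂ N` multiplications.**
For every `ε > 0` there is `N₀` such that for all fields `K` of characteristic zero, all `N ≥ N₀` and
all polynomials `Q ≠ 0` in the entries of the generic `N × N` matrix (of any degree):

* if `Q * per_N` is computed over `K` with at most `r` multiplications, then
  `r ≥ (1/864 - ε) N² log₂ N`;
* more generally, if some polynomial over `K(ε)` (`RatFunc K`) which is defined at `ε = 0` and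
  specializes to `Q * per_N` is computed over `K(ε)` with at most `r` multiplications, then
  `r ≥ (1/864 - ε) N² log₂ N`. -/
theorem result (ε : ℝ) (hε : 0 < ε) : ∃ N₀ : ℕ, ∀ (K : Type u) [Field K] [CharZero K],
    ∀ N ≥ N₀, ∀ Q : MvPolynomial (Fin N × Fin N) K, Q ≠ 0 → ∀ r : ℕ,
      (ComputedWith r (Q * genericPermanent K N) →
        (1 / 864 - ε) * (N : ℝ) ^ 2 * Real.logb 2 N ≤ r) ∧
      (∀ F : MvPolynomial (Fin N × Fin N) (RatFunc K),
        SpecializesTo F (Q * genericPermanent K N) → ComputedWith r F →
        (1 / 864 - ε) * (N : ℝ) ^ 2 * Real.logb 2 N ≤ r) := by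
  obtain ⟨N₁, h₁⟩ := Pool.Agent.H53R8.multiples_lower.{u} ε hε
  obtain ⟨N₂, h₂⟩ := Pool.Agent.H53R8.multiples_border.{u} ε hε
  refine ⟨max N₁ N₂, fun K _ _ N hN Q hQ r => ⟨?_, ?_⟩⟩
  · rintro ⟨s, M, g, hM, hg, i, hi, hgi⟩
    have h3 := h₁ K N ((le_max_left _ _).trans hN) s M g hg Q hQ ⟨i, hi, hgi.symm⟩
    have h4 : (M.card : ℝ) ≤ r := by exact_mod_cast hM
    exact h3.trans h4
  · rintro F hF ⟨s, M, g, hM, hg, i, hi, hgi⟩
    have h3 := h₂ K N ((le_max_right _ _).trans hN) Q hQ F hF s M g hg ⟨i, hi, hgi.symm⟩
    have h4 : (M.card : ℝ) ≤ r := by exact_mod_cast hM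
    exact h3.trans h4

end Pool.Agent.Results.MP_8b1d3b_lc.MultiplesOfPermanent
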