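import Pool.Agent.TH837.VP.Eqv

/-!
# MP_8b1d3b_lc: circuits for the permanent of the Vandermonde matrix of `n` variables

Let `V_n = per (x_i ^ j)` (`0 ≤ j < n`) be the permanent of the Vandermonde matrix, that is, the sum
of `∏ x_i ^ σ(i)` over all permutations `σ` of `{0, …, n-1}`, a symmetric polynomial in only `n`
variables (the monomial symmetric polynomial of the staircase partition). The determinant of the
Vandermonde matrix is a product of linear forms. We show that over fields of characteristic zero the
family `V_n` has circuits of polynomial size if and only if the permanent of the generic matrix has.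

The proof: the `m × m` permanent is a linear combination of polynomially many polynomials
`V_k(ℓ_1, …, ℓ_k)` with `k` polynomial in `m` and affine forms `ℓ_i` in one variable each
(`Pool/Agent/TH837/VP/Rep.lean`, theorem `rep`).
* `V_n(x_1, …, x_a, 1, …, 1)` is `(n - a)!` times the sum `S_n` over the injections of the `a`
  tokens into `{0, …, n-1}` (`VPer`). This sum satisfies a recursion over the block of one token, in
  which a block with the product `y` of its arguments contributes `1 + y + … + y ^ (n-1)` (`Inj`).
* At `x_a = ω ^ (c_a) (1 + ε Y_a)`, `ω` a primitive `M`-th root of unity and `n = M t`, the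
  coefficient of `ε ^ r` in `S_n` is a polynomial in `t` of degree at most `r + K`, `K` the largest
  number of disjoint blocks with `∑ c_a ≡ 0 mod M`, and the leading coefficients are given by the
  partitions into `K` such blocks (`Fil`, `Blk`).
* For suitable labels `c_a` all minimal blocks have three tokens, and the partitions of all tokens
  into such blocks correspond to the permutations of `N` rows (`Lab`, `Gad`).
* The weights are `1 + O(ε²)`; the `1` is cancelled by adding `L` rows and columns, `0 ≤ L ≤ m`, and
  extrapolation to `L = -1` (`Ext`, `Sym`, `Sets`, `Ident`).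
* The root of unity is removed by a linear functional on the extension field (`Desc`).
-/

set_option autoImplicit false

namespace Pool.Agent.Results.MP_8b1d3b_lc.VandermondePermanents

open MvPolynomial

/-- `p` is computed by an arithmetic circuit (straight-line program) with at most `s` steps: each
step is a variable, a constant, or the sum or the product of two earlier steps. -/
def ComputedWithin {F σ : Type} [Field F] (s : ℕ) (p : MvPolynomial σ F) : Prop :=
  ∃ (m : ℕ) (g : Fin (m + 1) → MvPolynomial σ F), m + 1 ≤ s ∧
    (∀ i : Fin (m + 1), (∃ v : σ, g i = X v) ∨ (∃ c : F, g i = C c) ∨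
      ∃ a b : Fin (m + 1), a < i ∧ b < i ∧ (g i = g a + g b ∨ g i = g a * g b)) ∧
    g (Fin.last m) = p

/-- The permanent of the generic `n × n` matrix. -/
noncomputable def genericPermanent (F : Type) [Field F] (n : ℕ) : MvPolynomial (Fin n × Fin n) F :=
  (Matrix.of fun i j : Fin n => (X (i, j) : MvPolynomial (Fin n × Fin n) F)).permanent

/-- The permanent of the Vandermonde matrix of `n` variables: the sum of `∏ i, x_i ^ σ(i)` over the
permutations `σ` of `{0, …, n-1}`. -/
noncomputable def vandermondePermanent (F : Type) [Field F] (n : ℕ) : MvPolynomial (Fin n) F :=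
  ∑ σ : Equiv.Perm (Fin n), ∏ i, (X i : MvPolynomial (Fin n) F) ^ (σ i : ℕ)

theorem vandermondePermanent_eq (F : Type) [Field F] (n : ℕ) :
    vandermondePermanent F n = Pool.Agent.TH837.VP.gvan F n := by
  rw [Pool.Agent.TH837.VP.gvan, ← Matrix.permanent_transpose]
  rfl

/-- **Permanents of Vandermonde matrices and the permanent.** Let `F` be a field of characteristic
zero, for example `ℚ`.
(1) A circuit of size `s` for the permanent of the generic `n × n` matrix gives a circuit of size
`s + n (n + 2)` for the permanent of the Vandermonde matrix of `n` variables.
(2) Circuits of size at most `B` for the permanents of the Vandermonde matrices of at most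
`700 (m + 1) ^ 4` variables give a circuit of size at most
`10 ^ 11 (m + 1) ^ 17 (B + 3500 (m + 1) ^ 4 + 3) + 1` for the permanent of the generic `m × m` matrix.
(3) The permanents of the generic matrices have circuits of polynomial size if and only if the
permanents of the Vandermonde matrices have. -/
theorem result (F : Type) [Field F] [CharZero F] :
    (∀ n s : ℕ, ComputedWithin s (genericPermanent F n) →
      ComputedWithin (s + n * (n + 2)) (vandermondePermanent F n)) ∧
    (∀ m B : ℕ, (∀ n ≤ 700 * (m + 1) ^ 4, ComputedWithin B (vandermondePermanent F n)) →
      ComputedWithin (10 ^ 11 * (m + 1) ^ 17 * (B + 3500 * (m + 1) ^ 4 + 3) + 1)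
        (genericPermanent F m)) ∧
    ((∃ K e : ℕ, ∀ n : ℕ, ComputedWithin (K * (n + 1) ^ e) (genericPermanent F n)) ↔
      ∃ K e : ℕ, ∀ n : ℕ, ComputedWithin (K * (n + 1) ^ e) (vandermondePermanent F n)) := by
  simp only [vandermondePermanent_eq]
  refine ⟨fun n s h => Pool.Agent.TH837.VP.van_of_per n s h, fun m B h => ?_,
    Pool.Agent.TH837.VP.per_iff_van F⟩
  have h1 := Pool.Agent.TH837.VP.per_of_van (F := F) m B h
  rw [show 700 * (m + 1) ^ 4 * 5 = 3500 * (m + 1) ^ 4 by ring] at h1
  exact h1

end Pool.Agent.Results.MP_8b1d3b_lc.VandermondePermanents
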